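import Pool.Agent.Q66.RX.Stm
import Pool.Agent.H1R3.BT.L2
import Pool.Agent.H1R3.BT.Star

/-!
Job PK1 of project RX: neighbourhoods of one of a locally compact abelian group contain polars of
compact sets of characters (Gelfand and Raikov, quantitative).
-/

set_option autoImplicit false

open MeasureTheory Filter Topology Set
open scoped ComplexConjugate InnerProductSpace

namespace Pool.Agent.Q77.RX

open Pool.Agent.Q66.RX Pool.Agent.H1R3.BT

/-- `0 ≤ rr z` and `0 ≤ rr (z * z)` imply `1/2 ≤ rr z`. -/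
theorem half_le (z : Circle) (h1 : 0 ≤ rr z) (h2 : 0 ≤ rr (z * z)) : 1 / 2 ≤ rr z := by
  have h3 : rr (z * z) = 2 * rr z ^ 2 - 1 := by
    have h4 : (z : ℂ).re ^ 2 + (z : ℂ).im ^ 2 = 1 := by
      have h5 := Circle.normSq_coe z
      rw [Complex.normSq_apply] at h5
      nlinarith
    unfold rr
    rw [Circle.coe_mul, Complex.mul_re]
    nlinarith
  rw [h3] at h2
  nlinarith

section
variable {G : Type} [CommGroup G] [TopologicalSpace G] [IsTopologicalGroup G]
  [LocallyCompactSpace G] [T2Space G] [MeasurableSpace G] [BorelSpace G]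
  {μ : Measure G} [μ.IsHaarMeasure]
  {H : Type} [NormedAddCommGroup H] [InnerProductSpace ℂ H] [CompleteSpace H]

/-- a vector which is orthogonal to its translate is zero if the characters are close to one -/
theorem orth (S : Sys G μ H) (v : H) {k : PontryaginDual G → ℝ} (hk : CC k)
    (hk0 : ∀ χ, 0 ≤ k χ) (hT : ‖((S.T hk.toC : S.A) : H →L[ℂ] H) v - v‖ ≤ ‖v‖ / 8)
    (g : G) (hg : ∀ χ ∈ tsupport k, 1 / 2 ≤ rr (χ g)) (h0 : ⟪v, S.U g v⟫_ℂ = 0) : v = 0 := by
  set T : S.A := S.T hk.toC with hTdef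
  have hpos := S.pos (a := S.u g * T - ((1 / 2 : ℝ) : ℂ) • T) (fun m => by
    rw [map_sub, map_mul, map_smul, S.char_T, smul_eq_mul, Complex.sub_re,
      Complex.re_ofReal_mul]
    by_cases hm : S.good m
    · rw [S.sharp_good _ hm, ← S.κ_apply hm, mul_comm, Complex.re_ofReal_mul, Complex.ofReal_re]
      by_cases hz : k (S.κ m) = 0
      · rw [hz]; simp
      · have h1 := hg (S.κ m) (subset_tsupport _ hz)
        have h2 := hk0 (S.κ m)
        have h3 : rr ((S.κ m) g) = (((S.κ m) g : Circle) : ℂ).re := rfl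
        rw [h3] at h1
        nlinarith
    · rw [S.sharp_bad _ hm]; simp) v
  have e1 : ((S.u g * T - ((1 / 2 : ℝ) : ℂ) • T : S.A) : H →L[ℂ] H) v =
      S.U g ((T : H →L[ℂ] H) v) - ((1 / 2 : ℝ) : ℂ) • ((T : H →L[ℂ] H) v) := rfl
  rw [e1, inner_sub_right, inner_smul_right, Complex.sub_re, Complex.re_ofReal_mul] at hpos
  set w : H := (T : H →L[ℂ] H) v - v with hw
  have e2 : (T : H →L[ℂ] H) v = v + w := by rw [hw]; abel
  rw [e2, map_add, inner_add_right, inner_add_right, h0, zero_add, Complex.add_re,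
    inner_self_eq_norm_sq_to_K] at hpos
  have h1 : (⟪v, S.U g w⟫_ℂ).re ≤ ‖v‖ * (‖v‖ / 8) := by
    refine (Complex.re_le_norm _).trans ((norm_inner_le_norm _ _).trans ?_)
    rw [S.U_norm]
    exact mul_le_mul_of_nonneg_left hT (norm_nonneg _)
  have h2 : -(‖v‖ * (‖v‖ / 8)) ≤ (⟪v, w⟫_ℂ).re := by
    have h3 : |(⟪v, w⟫_ℂ).re| ≤ ‖v‖ * (‖v‖ / 8) := by
      refine (Complex.abs_re_le_norm _).trans ((norm_inner_le_norm _ _).trans ?_)
      exact mul_le_mul_of_nonneg_left hT (norm_nonneg _)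
    exact (abs_le.1 h3).1
  have h3 : (((‖v‖ : ℂ)) ^ 2).re = ‖v‖ ^ 2 := by
    rw [← Complex.ofReal_pow, Complex.ofReal_re]
  have h4 : ‖v‖ ^ 2 ≤ 0 := by
    simp only [Complex.coe_algebraMap] at hpos
    rw [h3] at hpos
    nlinarith
  have h5 : ‖v‖ = 0 := by nlinarith [norm_nonneg v]
  exact norm_eq_zero.1 h5

end

theorem t_PK1 (hA : S_PKA) : S_PK1 := by
  intro X _ _ _ _ _ W hW
  let _ : MeasurableSpace X := borel X
  have _ : BorelSpace X := ⟨rfl⟩
  let μ : Measure X := Measure.haar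
  obtain ⟨V, hV, hVW⟩ := exists_nhds_split_inv hW
  obtain ⟨O, hOV, hO, h1O⟩ := mem_nhds_iff.1 hV
  obtain ⟨p, hp, hp0, hp1, hpO⟩ := exists_unit (μ := μ) hO h1O
  let S : Sys X μ (Lp ℂ 2 μ) := sys μ
  set v : Lp ℂ 2 μ := S.ι (fun x => (p x : ℂ)) with hv
  have hvne : v ≠ 0 := S.ι_ne hp hp1
  obtain ⟨k, hk, hk0, -, hT⟩ := hA X μ (Lp ℂ 2 μ) S v (‖v‖ / 8)
    (by have := norm_pos_iff.2 hvne; positivity)
  refine ⟨tsupport k ∪ (fun χ => χ * χ) '' tsupport k,
    hk.2.union (hk.2.image (by fun_prop)), fun g hg => ?_⟩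
  by_contra hgW
  refine hvne (orth S v hk hk0 hT g (fun χ hχ => half_le _ (hg χ (Or.inl hχ)) ?_) ?_)
  · exact hg (χ * χ) (Or.inr ⟨χ, hχ, rfl⟩)
  · rw [hv, S.U_ι g _ hp.toC, S.inner_ι _ _ hp.toC (hp.toC.shift' g⁻¹)]
    have h0 : ∀ x : X, conj ((p x : ℂ)) * ((p (g⁻¹ * x) : ℝ) : ℂ) = 0 := by
      intro x
      by_contra hne
      have h2 : p x ≠ 0 := fun h => hne (by rw [h]; simp)
      have h3 : p (g⁻¹ * x) ≠ 0 := fun h => hne (by rw [h]; simp)
      have h4 := hVW x (hOV (hpO (subset_tsupport _ h2))) (g⁻¹ * x)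
        (hOV (hpO (subset_tsupport _ h3)))
      apply hgW
      have h5 : x / (g⁻¹ * x) = g := by
        rw [div_eq_mul_inv, mul_inv_rev, inv_inv]
        group
      rwa [h5] at h4
    simp only [h0, integral_zero]

end Pool.Agent.Q77.RX
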